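import Pool.Agent.FHQ.StmtsG

/-!
# Squad FHQ, row TUP: from sets to tuples
-/

set_option autoImplicit false

namespace Pool.Agent.FHQ.H92

/-- **TUP** -/
theorem tup : TupStmt := by
  classical
  intro e N α he hα heN Fs hcard hFs
  have hex : ∀ s : Finset (Fin N), ∃ f : Fin e → Fin N, s ∈ Fs →
      (Function.Injective f ∧ Finset.image f Finset.univ = s) := by
    intro s
    by_cases hs : s ∈ Fs
    · have h := hcard s hs
      refine ⟨fun i => s.orderEmbOfFin h i, fun _ => ⟨fun a b hab => (s.orderEmbOfFin h).injective hab, ?_⟩⟩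
      apply Finset.coe_injective
      rw [Finset.coe_image, Finset.coe_univ, Set.image_univ]
      exact Finset.range_orderEmbOfFin s h
    · exact ⟨fun _ => ⟨0, by omega⟩, fun h => absurd h hs⟩
  choose g hg using hex
  have himg : ∀ s ∈ Fs, ∀ σ : Equiv.Perm (Fin e),
      Finset.image (g s ∘ σ) Finset.univ = s := by
    intro s hs σ
    have h1 := (hg s hs).2
    rw [← Finset.image_image]
    have h2 : Finset.image (σ : Fin e → Fin e) Finset.univ = Finset.univ :=
      Finset.image_univ_of_surjective σ.surjective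
    rw [h2, h1]
  have h1 : ((Fs ×ˢ (Set.univ : Set (Equiv.Perm (Fin e)))) :
      Set (Finset (Fin N) × Equiv.Perm (Fin e))).ncard ≤
      ({f : Fin e → Fin N | Finset.image f Finset.univ ∈ Fs}).ncard := by
    apply Set.ncard_le_ncard_of_injOn (fun p => g p.1 ∘ p.2)
    · rintro ⟨s, σ⟩ ⟨hs, _⟩
      change Finset.image (g s ∘ σ) Finset.univ ∈ Fs
      rw [himg s hs σ]
      exact hs
    · rintro ⟨s, σ⟩ ⟨hs, _⟩ ⟨s', σ'⟩ ⟨hs', _⟩ h
      simp only at h
      have e1 : s = s' := by
        rw [← himg s hs σ, ← himg s' hs' σ', h]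
      subst e1
      have e2 : σ = σ' := by
        apply Equiv.ext
        intro i
        exact (hg s hs).1 (congrFun h i)
      rw [e2]
  rw [Set.ncard_prod, Set.ncard_univ, Nat.card_eq_fintype_card, Fintype.card_perm,
    Fintype.card_fin] at h1
  have h2 : ((Fs.ncard * e.factorial : ℕ) : ℝ) ≤
      (({f : Fin e → Fin N | Finset.image f Finset.univ ∈ Fs}).ncard : ℝ) := by
    exact_mod_cast h1
  refine le_trans ?_ h2
  push_cast
  have h3 : ((N + 1 - e : ℕ) : ℝ) ^ e ≤ (e.factorial : ℝ) * (N.choose e : ℝ) := by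
    have h4 := Nat.pow_sub_le_descFactorial N e
    rw [Nat.descFactorial_eq_factorial_mul_choose] at h4
    exact_mod_cast h4
  have he0 : (0 : ℝ) < e := by exact_mod_cast he
  have h5 : (N : ℝ) / e ≤ ((N + 1 - e : ℕ) : ℝ) := by
    rw [Nat.cast_sub (by omega), div_le_iff₀ he0]
    push_cast
    have h6 : (e : ℝ) ≤ N := by exact_mod_cast heN
    have h7 : (1 : ℝ) ≤ e := by exact_mod_cast he
    nlinarith
  have h6 : ((N : ℝ) / e) ^ e ≤ ((N + 1 - e : ℕ) : ℝ) ^ e :=
    pow_le_pow_left₀ (by positivity) h5 e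
  have h7 : α / (e : ℝ) ^ e * (N : ℝ) ^ e = α * ((N : ℝ) / e) ^ e := by
    rw [div_pow]
    ring
  rw [h7]
  have h8 : α * ((N : ℝ) / e) ^ e ≤ α * ((e.factorial : ℝ) * (N.choose e : ℝ)) :=
    mul_le_mul_of_nonneg_left (le_trans h6 h3) hα.le
  have h9 : (α * (N.choose e : ℝ)) * (e.factorial : ℝ) ≤ (Fs.ncard : ℝ) * (e.factorial : ℝ) :=
    mul_le_mul_of_nonneg_right hFs (by positivity)
  linarith

end Pool.Agent.FHQ.H92
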