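import Pool.Agent.FHQ.StmtsP

/-!
# Squad FHQ, row NCA: a cancellation comes from a root of a derivative
-/

open scoped BigOperators

noncomputable section

namespace Pool.Agent.FHQ.H92N

open Polynomial

variable {p : ℕ} {D : ℕ}

open Classical in
/-- the polynomial of the leading terms -/
def RP (a : Fin D → ZMod p) (s : Fin D → ℤ) (g : ℤ) : (ZMod p)[X] :=
  ∑ k : Fin D, if Arg a s g k then monomial (k : ℕ) (a k) else 0

theorem RP_eval (a : Fin D → ZMod p) (s : Fin D → ℤ) (g : ℤ) (z : ZMod p) :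
    (RP a s g).eval z = Sp a s g z := by
  unfold RP Sp
  rw [eval_finset_sum]
  apply Finset.sum_congr rfl
  intro k _
  by_cases h : Arg a s g k
  · rw [if_pos h, if_pos h, eval_monomial]
  · rw [if_neg h, if_neg h, eval_zero]

theorem RP_deriv (a : Fin D → ZMod p) (s : Fin D → ℤ) (g : ℤ) (z : ZMod p) :
    (derivative (RP a s g)).eval z = Sd a s g z := by
  unfold RP Sd
  rw [derivative_sum, eval_finset_sum]
  apply Finset.sum_congr rfl
  intro k _
  by_cases h : Arg a s g k
  · rw [if_pos h, if_pos h, derivative_monomial, eval_monomial]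
    ring
  · rw [if_neg h, if_neg h, derivative_zero, eval_zero]

open Classical in
theorem RP_coeff_lt (a : Fin D → ZMod p) (s : Fin D → ℤ) (g : ℤ) (k : Fin D) :
    (RP a s g).coeff (k : ℕ) = if Arg a s g k then a k else 0 := by
  unfold RP
  rw [finset_sum_coeff, Finset.sum_eq_single k]
  · by_cases h : Arg a s g k
    · rw [if_pos h, if_pos h, coeff_monomial, if_pos rfl]
    · rw [if_neg h, if_neg h, coeff_zero]
  · intro l _ hl
    by_cases h : Arg a s g l
    · rw [if_pos h, coeff_monomial, if_neg (fun h => hl (Fin.ext h))]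
    · rw [if_neg h, coeff_zero]
  · intro h
    exact absurd (Finset.mem_univ k) h

theorem RP_coeff_ge (a : Fin D → ZMod p) (s : Fin D → ℤ) (g : ℤ) (n : ℕ) (hn : D ≤ n) :
    (RP a s g).coeff n = 0 := by
  unfold RP
  rw [finset_sum_coeff]
  apply Finset.sum_eq_zero
  intro k _
  by_cases h : Arg a s g k
  · rw [if_pos h, coeff_monomial, if_neg (fun h => by have := k.2; omega)]
  · rw [if_neg h, coeff_zero]

/-- a nonzero polynomial of degree less than `p` has a nonzero derivative at every point -/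
theorem exists_deriv [Fact p.Prime] (R : (ZMod p)[X]) (hR : R ≠ 0) (hd : R.natDegree < p)
    (z : ZMod p) : ∃ e : ℕ, (derivative^[e] R).eval z ≠ 0 := by
  by_contra hcon
  have hcon' : ∀ e : ℕ, (derivative^[e] R).eval z = 0 := by
    intro e
    by_contra h
    exact hcon ⟨e, h⟩
  apply hR
  apply taylor_injective z
  rw [map_zero]
  ext n
  rw [taylor_coeff, coeff_zero]
  by_cases hn : n < p
  · have h1 : n.factorial • hasseDeriv n R = derivative^[n] R := by
      have h := congrFun (factorial_smul_hasseDeriv (R := ZMod p) (k := n)) R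
      exact h
    have h2 : (n.factorial : ZMod p) * (hasseDeriv n R).eval z = 0 := by
      rw [← hcon' n, ← h1, eval_smul, nsmul_eq_mul]
    have h3 : (n.factorial : ZMod p) ≠ 0 := by
      rw [Ne, ZMod.natCast_eq_zero_iff]
      intro h
      exact absurd (((Fact.out : p.Prime).dvd_factorial).1 h) (by omega)
    exact (mul_eq_zero.1 h2).resolve_left h3
  · rw [hasseDeriv_eq_zero_of_lt_natDegree R n (by omega), eval_zero]

/-- natural numbers which are prime to `p` are units -/
theorem nat_unit [Fact p.Prime] {K : Type} [Field K] (A : AcF0 p K) (res : ResStmt) (n : ℕ)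
    (hn : (n : ZMod p) ≠ 0) : (n : K) ≠ 0 ∧ A.v (n : K) = 0 ∧ A.ac (n : K) = (n : ZMod p) := by
  obtain ⟨h1, h2, -, -, h5, -, -, -⟩ := res p K A
  have hI : ∀ n : ℕ, A.Int (n : K) ∧ A.res (n : K) = (n : ZMod p) := by
    intro n
    induction n with
    | zero =>
      refine ⟨Or.inl Nat.cast_zero, ?_⟩
      unfold AcF0.res
      rw [if_neg (by
        rintro ⟨h, -⟩
        exact h Nat.cast_zero), Nat.cast_zero]
    | succ n ih =>
      have hI1 : A.Int (1 : K) := Or.inr (by rw [h2])
      have hr1 : A.res (1 : K) = 1 := by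
        unfold AcF0.res
        rw [if_pos ⟨one_ne_zero, h2⟩, h1]
      have h := h5 (n : K) 1 ih.1 hI1
      rw [Nat.cast_succ, Nat.cast_succ]
      refine ⟨h.1, ?_⟩
      rw [h.2.1, ih.2, hr1]
  have h := (hI n).2
  unfold AcF0.res at h
  by_cases hc : (n : K) ≠ 0 ∧ A.v (n : K) = 0
  · rw [if_pos hc] at h
    exact ⟨hc.1, hc.2, h⟩
  · rw [if_neg hc] at h
    exact absurd h.symm hn

/-- **NCA** -/
theorem nca (hen : HenStmt) (res : ResStmt) : NcaStmt := by
  intro p _ K _ A W D hW hWD hDp z g hz hSp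
  classical
  set a : Fin D → ZMod p := A.toAcF0.cac D W with ha
  set s : Fin D → ℤ := A.toAcF0.cv D W with hs
  have hpp : p.Prime := Fact.out
  -- a nonzero coefficient
  have hac : ∀ k : Fin D, a k ≠ 0 ↔ W.coeff k ≠ 0 := by
    intro k
    exact not_congr (A.ac_zero (W.coeff k))
  obtain ⟨k₁, hk₁⟩ : ∃ k : Fin D, a k ≠ 0 := by
    refine ⟨⟨W.natDegree, hWD⟩, ?_⟩
    rw [hac]
    exact leadingCoeff_ne_zero.2 hW
  -- an argument index
  obtain ⟨k₂, hk₂⟩ : ∃ k : Fin D, Arg a s g k := by
    obtain ⟨k, hk, hmin⟩ := Finset.exists_min_image (Finset.univ.filter fun k => a k ≠ 0)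
      (fun k : Fin D => s k + (k : ℕ) * g) ⟨k₁, Finset.mem_filter.2 ⟨Finset.mem_univ _, hk₁⟩⟩
    exact ⟨k, (Finset.mem_filter.1 hk).2, fun l hl =>
      hmin l (Finset.mem_filter.2 ⟨Finset.mem_univ _, hl⟩)⟩
  set R : (ZMod p)[X] := RP a s g with hR
  have hR0 : R ≠ 0 := by
    intro h
    have h1 := RP_coeff_lt a s g k₂
    rw [← hR, h, coeff_zero, if_pos hk₂] at h1
    exact hk₂.1 h1.symm
  have hRd : R.natDegree < p := by
    refine lt_of_lt_of_le ?_ hDp
    rw [natDegree_lt_iff_degree_lt hR0, degree_lt_iff_coeff_zero]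
    intro n hn
    exact RP_coeff_ge a s g n hn
  have hex := exists_deriv R hR0 hRd z
  have he0 : (derivative^[0] R).eval z = 0 := by
    rw [Function.iterate_zero, id_eq, hR, RP_eval]
    exact hSp
  set e : ℕ := Nat.find hex with he
  have hespec : (derivative^[e] R).eval z ≠ 0 := Nat.find_spec hex
  have hemin : ∀ m < e, (derivative^[m] R).eval z = 0 := by
    intro m hm
    by_contra h
    exact Nat.find_min hex hm h
  have hepos : e ≠ 0 := by
    intro h
    rw [h] at hespec
    exact hespec he0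
  obtain ⟨m, hm⟩ := Nat.exists_eq_succ_of_ne_zero hepos
  have hm0 : (derivative^[m] R).eval z = 0 := hemin m (by omega)
  have hm1 : (derivative (derivative^[m] R)).eval z ≠ 0 := by
    rw [← Function.iterate_succ_apply' (f := derivative), ← hm]
    exact hespec
  -- the factors are units
  have hfac : ∀ j : ℕ, j + m < D → ((j + m).descFactorial m : ZMod p) ≠ 0 := by
    intro j hj
    rw [Ne, ZMod.natCast_eq_zero_iff]
    intro h
    have h1 : (j + m).descFactorial m ∣ (j + m).factorial := by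
      rw [← Nat.factorial_mul_descFactorial (show m ≤ j + m by omega)]
      exact Dvd.intro_left _ rfl
    exact absurd (hpp.dvd_factorial.1 (h.trans h1)) (by omega)
  set W' : K[X] := derivative^[m] W with hW'
  have hcW' : ∀ j : ℕ, W'.coeff j = ((j + m).descFactorial m : K) * W.coeff (j + m) := by
    intro j
    rw [hW', coeff_iterate_derivative, nsmul_eq_mul]
  have hcW'0 : ∀ j : ℕ, D ≤ j + m → W'.coeff j = 0 := by
    intro j hj
    rw [hcW', coeff_eq_zero_of_natDegree_lt (by omega), mul_zero]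
  set a' : Fin D → ZMod p := A.toAcF0.cac D W' with ha'
  set s' : Fin D → ℤ := A.toAcF0.cv D W' with hs'
  have ha'0 : ∀ j : Fin D, D ≤ (j : ℕ) + m → a' j = 0 := by
    intro j hj
    show A.ac (W'.coeff j) = 0
    rw [hcW'0 j hj]
    exact (A.ac_zero 0).2 rfl
  have ha'1 : ∀ (j : Fin D) (hj : (j : ℕ) + m < D),
      a' j = (((j : ℕ) + m).descFactorial m : ZMod p) * a ⟨(j : ℕ) + m, hj⟩ := by
    intro j hj
    show A.ac (W'.coeff j) = _ * A.ac (W.coeff ((j : ℕ) + m))
    rw [hcW', A.ac_mul, (nat_unit A.toAcF0 res _ (hfac j hj)).2.2]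
  have hs'1 : ∀ (j : Fin D) (hj : (j : ℕ) + m < D), a ⟨(j : ℕ) + m, hj⟩ ≠ 0 →
      s' j = s ⟨(j : ℕ) + m, hj⟩ := by
    intro j hj h0
    show A.v (W'.coeff j) = A.v (W.coeff ((j : ℕ) + m))
    have h1 := nat_unit A.toAcF0 res _ (hfac j hj)
    rw [hcW', A.v_mul _ _ h1.1 ((hac ⟨(j : ℕ) + m, hj⟩).1 h0), h1.2.1, zero_add]
  -- an argument index which is at least `m`
  obtain ⟨j₀, hj₀, hA₀⟩ : ∃ (j : Fin D) (hj : (j : ℕ) + m < D), Arg a s g ⟨(j : ℕ) + m, hj⟩ := by
    have h1 : derivative^[m] R ≠ 0 := by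
      intro h
      apply hm1
      rw [h, derivative_zero, eval_zero]
    obtain ⟨j, hj⟩ : ∃ j, (derivative^[m] R).coeff j ≠ 0 := by
      by_contra hcon
      apply h1
      ext j
      by_contra h
      exact hcon ⟨j, h⟩
    rw [coeff_iterate_derivative] at hj
    have h2 : R.coeff (j + m) ≠ 0 := by
      intro h
      apply hj
      rw [h, smul_zero]
    have h3 : j + m < D := by
      by_contra h
      exact h2 (RP_coeff_ge a s g (j + m) (by omega))
    refine ⟨⟨j, by omega⟩, h3, ?_⟩
    by_contra h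
    apply h2
    have h4 := RP_coeff_lt a s g ⟨j + m, h3⟩
    rw [if_neg h] at h4
    exact h4
  have hArg : ∀ j : Fin D, Arg a' s' g j ↔ ∃ hj : (j : ℕ) + m < D,
      Arg a s g ⟨(j : ℕ) + m, hj⟩ := by
    intro j
    constructor
    · rintro ⟨h1, h2⟩
      have hj : (j : ℕ) + m < D := by
        by_contra h
        exact h1 (ha'0 j (by omega))
      refine ⟨hj, ?_, ?_⟩
      · intro h
        apply h1
        rw [ha'1 j hj, h, mul_zero]
      · intro l hl
        have haj : a ⟨(j : ℕ) + m, hj⟩ ≠ 0 := by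
          intro h
          apply h1
          rw [ha'1 j hj, h, mul_zero]
        have ha0 : a' j₀ ≠ 0 := by
          rw [ha'1 j₀ hj₀]
          exact mul_ne_zero (hfac j₀ hj₀) hA₀.1
        have h3 := h2 j₀ ha0
        rw [hs'1 j hj haj, hs'1 j₀ hj₀ hA₀.1] at h3
        have h4 := hA₀.2 l hl
        push_cast at h3 h4 ⊢
        linarith
    · rintro ⟨hj, h1, h2⟩
      refine ⟨?_, ?_⟩
      · rw [ha'1 j hj]
        exact mul_ne_zero (hfac j hj) h1
      · intro l hl
        have hl' : (l : ℕ) + m < D := by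
          by_contra h
          exact hl (ha'0 l (by omega))
        have hal : a ⟨(l : ℕ) + m, hl'⟩ ≠ 0 := by
          intro h
          apply hl
          rw [ha'1 l hl', h, mul_zero]
        have h3 := h2 _ hal
        rw [hs'1 j hj h1, hs'1 l hl' hal]
        push_cast at h3 ⊢
        linarith
  have hRP' : RP a' s' g = derivative^[m] R := by
    ext j
    rw [coeff_iterate_derivative, nsmul_eq_mul]
    by_cases hjD : j < D
    · have h1 := RP_coeff_lt a' s' g ⟨j, hjD⟩
      simp only at h1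
      rw [h1]
      by_cases hj : j + m < D
      · have h2 := RP_coeff_lt a s g ⟨j + m, hj⟩
        simp only at h2
        rw [hR, h2]
        by_cases hA : Arg a s g ⟨j + m, hj⟩
        · rw [if_pos hA, if_pos ((hArg ⟨j, hjD⟩).2 ⟨hj, hA⟩), ha'1 ⟨j, hjD⟩ hj]
        · rw [if_neg hA, if_neg (fun h => hA ((hArg ⟨j, hjD⟩).1 h).2), mul_zero]
      · rw [hR, RP_coeff_ge a s g (j + m) (by omega), mul_zero, if_neg]
        intro h
        exact hj ((hArg ⟨j, hjD⟩).1 h).1
    · rw [RP_coeff_ge a' s' g j (by omega), hR, RP_coeff_ge a s g (j + m) (by omega), mul_zero]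
  have hW'0 : W' ≠ 0 := by
    intro h
    have h1 : a' j₀ ≠ 0 := by
      rw [ha'1 j₀ hj₀]
      exact mul_ne_zero (hfac j₀ hj₀) hA₀.1
    apply h1
    show A.ac (W'.coeff j₀) = 0
    rw [h, coeff_zero]
    exact (A.ac_zero 0).2 rfl
  have hW'd : W'.natDegree < D := by
    rw [natDegree_lt_iff_degree_lt hW'0, degree_lt_iff_coeff_zero]
    intro n hn
    exact hcW'0 n (by omega)
  obtain ⟨t, ht0, htz, htg, htr⟩ := hen p K A W' D hW'0 hW'd z g hz
    (by
      show Sp a' s' g z = 0
      rw [← RP_eval, hRP']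
      exact hm0)
    (by
      show Sd a' s' g z ≠ 0
      rw [← RP_deriv, hRP']
      exact hm1)
  refine ⟨m, t, hW'0, htr, ht0, htz, htg, ?_⟩
  intro hSd
  by_contra hmm
  have hm00 : m = 0 := by omega
  apply hm1
  rw [hm00, Function.iterate_zero, id_eq, hR, RP_deriv]
  exact hSd

end Pool.Agent.FHQ.H92N
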